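import Pool.Agent.Lib.MP_4c5e24_al.Fin2

/-!
# Automorphisms of the lattice of group varieties commute with the products by abelian varieties

The definitions are in the files `Defs` (`FI`, `der`, `Bn`, `AP`), `MagCor` (`Res`), `Pr6` (`Rs`) and
`Fin2` (`PrOK`) of the folder `Lib/MP_4c5e24_al`.
-/

namespace Pool.Agent.Results.MP_4c5e24_al.AbelianProducts

open Pool.Agent.Lib.MP_4c5e24_al

/-- Every order automorphism of the lattice of group varieties commutes with the products `A_n X`
under the condition `PrOK n X`. -/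
theorem result
    (e : {H : Subgroup (FreeGroup ℕ) // ∀ φ : FreeGroup ℕ →* FreeGroup ℕ, H.map φ ≤ H} ≃o
      {H : Subgroup (FreeGroup ℕ) // ∀ φ : FreeGroup ℕ →* FreeGroup ℕ, H.map φ ≤ H})
    (n : ℕ) (X : {H : Subgroup (FreeGroup ℕ) // ∀ φ : FreeGroup ℕ →* FreeGroup ℕ, H.map φ ≤ H})
    (h : PrOK n X) : e (AP n X) = AP n (e X) :=
  map_AP_all e h

end Pool.Agent.Results.MP_4c5e24_al.AbelianProducts
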