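import Pool.Agent.Lib.MP_4c5e24_al.Fin2

/-!
# Automorphisms of the lattice of group varieties commute with coprime products

The definitions are in the files `Defs` (`FI`, `der`, `Bn`) and `Pr1` (`prd`) of the folder
`Lib/MP_4c5e24_al`.
-/

namespace Pool.Agent.Results.MP_4c5e24_al.Multiplicative

open Pool.Agent.Lib.MP_4c5e24_al

/-- Every order automorphism of the lattice of group varieties commutes with the products of two
solvable varieties whose exponents are finite and coprime. -/
theorem result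
    (e : {H : Subgroup (FreeGroup ℕ) // ∀ φ : FreeGroup ℕ →* FreeGroup ℕ, H.map φ ≤ H} ≃o
      {H : Subgroup (FreeGroup ℕ) // ∀ φ : FreeGroup ℕ →* FreeGroup ℕ, H.map φ ≤ H})
    (n m : ℕ) (hnm : Nat.Coprime n m) (hn : 0 < n) (hm : 0 < m)
    (U X : {H : Subgroup (FreeGroup ℕ) // ∀ φ : FreeGroup ℕ →* FreeGroup ℕ, H.map φ ≤ H})
    (hU : Bn n ≤ U) (hX : Bn m ≤ X) (hs : ∃ s, der s ≤ U) (ht : ∃ t, der t ≤ X) :
    e (prd U X) = prd (e U) (e X) :=
  map_prd e hnm hn hm hU hX hs ht

end Pool.Agent.Results.MP_4c5e24_al.Multiplicative
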