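import Pool.Agent.Lib.MP_4c5e24_al.Fin2

/-!
# Rigidity of the lattice of group varieties

The poset of the fully invariant subgroups of the free group `F` of countable rank is dual to the
lattice of group varieties. The definitions are in the files `Defs` (`FI`, `gam`, `der`, `Bn`, `Ab`,
`AP`), `Pr1` (`prd`), `MagCor` (`Res`), `Pr6` (`Rs`) and `Fin2` (`PrOK`, `Fixed`) of the folder
`Lib/MP_4c5e24_al`.
-/

namespace Pool.Agent.Results.MP_4c5e24_al.Rigidity

open Pool.Agent.Lib.MP_4c5e24_al

/-- Every order automorphism of the lattice of group varieties fixes every variety in the class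
`Fixed`. -/
theorem result
    (e : {H : Subgroup (FreeGroup ℕ) // ∀ φ : FreeGroup ℕ →* FreeGroup ℕ, H.map φ ≤ H} ≃o
      {H : Subgroup (FreeGroup ℕ) // ∀ φ : FreeGroup ℕ →* FreeGroup ℕ, H.map φ ≤ H})
    (H : {H : Subgroup (FreeGroup ℕ) // ∀ φ : FreeGroup ℕ →* FreeGroup ℕ, H.map φ ≤ H})
    (hH : Fixed H) : e H = H :=
  fixed e hH

end Pool.Agent.Results.MP_4c5e24_al.Rigidity
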